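import Pool.Agent.H628R4.SP.FinalN
import Pool.Agent.H620R2.Gauge2.Trans

/-!
# For how many oracles are `P` or `NP` and polylogarithmic space comparable?

For every gauge `f`, the set of the oracles `A` for which one of the classes `P^A` and
`POLYLOGSPACE^A` contains the other one is a null set for `f` if and only if for every `ε > 0`
there are infinitely many `N` with `f N ≤ 2 ^ ((log N) ^ ε)`; the same holds for `NP^A` and
`POLYLOGSPACE^A`, and for every set of oracles between the set of the `A` with `PSPACE^A`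
contained in `LOGSPACE^A` and the set of the `A` with `P^A` contained in nondeterministic
polylogarithmic space or polylogarithmic space contained in `NP^A/poly`.
-/

set_option autoImplicit false

namespace Pool.Agent.Results.MP_9dcf40_lc.GaugeThreshold

open Pool.Agent.NPC Pool.Agent.H620R2.Gauge Pool.Agent.H628R4.SP

theorem result (f : ℕ → ℝ) :
    (∀ O : Set Oracle,
      (∀ A : Oracle, (∀ L, IsPSPACE A L → IsLogSpace A L) → A ∈ O) →
      (∀ A ∈ O, (∀ L, IsP A L → IsNPolylog A L) ∨
        (∀ L, IsPolylog A L → WithAdvice (IsNP A) L)) →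
      (Null f O ↔
        ∀ ε : ℝ, 0 < ε → ∃ᶠ N : ℕ in Filter.atTop, f N ≤ 2 ^ (Real.logb 2 N) ^ ε)) ∧
    (Null f {A : Oracle | (∀ L, IsP A L → IsPolylog A L) ∨ (∀ L, IsPolylog A L → IsP A L)} ↔
      ∀ ε : ℝ, 0 < ε → ∃ᶠ N : ℕ in Filter.atTop, f N ≤ 2 ^ (Real.logb 2 N) ^ ε) ∧
    (Null f {A : Oracle | (∀ L, IsNP A L → IsPolylog A L) ∨ (∀ L, IsPolylog A L → IsNP A L)} ↔
      ∀ ε : ℝ, 0 < ε → ∃ᶠ N : ℕ in Filter.atTop, f N ≤ 2 ^ (Real.logb 2 N) ^ ε) := by
  refine ⟨fun O h1 h2 => keyN f O h1 h2, keyN f _ ?_ ?_, keyN f _ ?_ ?_⟩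
  · intro A hA
    exact Or.inl fun L hL => (hA L hL.isPSPACE).isPolylog
  · intro A hA
    rcases hA with h | h
    · exact Or.inl fun L hL => (h L hL).isN
    · exact Or.inr fun L hL => (h L hL).isNP.withAdvice
  · intro A hA
    exact Or.inl fun L hL => (hA L hL.isPSPACE).isPolylog
  · intro A hA
    rcases hA with h | h
    · exact Or.inl fun L hL => (h L hL.isNP).isN
    · exact Or.inr fun L hL => (h L hL).withAdvice

end Pool.Agent.Results.MP_9dcf40_lc.GaugeThreshold
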