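import Pool.Agent.H560R2.Rob12

/-!
A function in parity-L, so in `NC^2` and in `P`, that is hard on average for symmetric and for
nondeterministic space with few negations.

Symmetric (or, by Reingold's theorem, deterministic) space `S` corresponds to undirected switching
networks with `2 ^ O(S)` nodes, nondeterministic space `S` to directed networks. Here a computation
consists of rounds; in each round some networks (over the input bits, not negated) are evaluated,
the choice of which depends in an arbitrary way on the answers of the earlier rounds, and a last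
network, chosen in the same way, gives the result. A NOT gate is a round with one network; a set `Z`
of input bits that may be used negated is a round with `|Z|` networks of two nodes.

The function: unsolvability of the subsets of a fixed sparse system of at most `N` linear equations
over the field with two elements in `N` variables.

The proof: for a suitable distribution of solvable systems, and one of systems that are far from
solvable, the rank method is robust, because the matrix has transitive groups of symmetries of the
rows and of the columns. Computations with negations are handled by a random chain of solvable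
systems made of `M` blocks.
-/

namespace Pool.Agent.Results.MP_9dcf40_lc.HeuristicPolylogSpace

open Finset

/-- A linear equation over the field with two elements: the sum of the variables `e.1 0`, ...,
`e.1 7` is `e.2`. -/
abbrev Equation (N : ℕ) : Type := (Fin 8 → Fin N) × ZMod 2

/-- The system of the equations `G i` with `x i = true` is solvable. -/
def Solvable {N m : ℕ} (G : Fin m → Equation N) (x : Fin m → Bool) : Prop :=
  ∃ a : Fin N → ZMod 2, ∀ i, x i = true → ∑ j, a ((G i).1 j) = (G i).2

/-- Every assignment violates at least `d` of the equations `G i` with `x i = true`. -/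
def Far {N m : ℕ} (G : Fin m → Equation N) (d : ℕ) (x : Fin m → Bool) : Prop :=
  ∀ a : Fin N → ZMod 2, d ≤ (univ.filter (fun i => x i = true ∧ ∑ j, a ((G i).1 j) ≠ (G i).2)).card

/-- Unsolvability of the subsets of `G` has a monotone span program over the field with two elements
with one row for each equation. -/
def ParitySpan {N m : ℕ} (G : Fin m → Equation N) : Prop :=
  ∃ (row : Fin m → Fin (N + 1) → ZMod 2) (target : Fin (N + 1) → ZMod 2), ∀ x : Fin m → Bool,
    target ∈ Submodule.span (ZMod 2) (row '' {i | x i = true}) ↔ ¬ Solvable G x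

/-- Monotone switching networks over the input bits `V`: a label, which is a constant or an input
bit, for each pair of nodes. -/
structure Network (V : Type) where
  nodes : ℕ
  label : Fin nodes → Fin nodes → Bool ⊕ V
  source : Fin nodes
  target : Fin nodes

/-- The wire from `u` to `v` is present on the input `x`: its label is the constant `true` or an
input bit `i` with `x i = true`. -/
def Network.Wire {V : Type} (P : Network V) (x : V → Bool) (u v : Fin P.nodes) : Prop :=
  Sum.elim id x (P.label u v) = true

/-- Undirected networks accept if the source and the target are connected by wires. -/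
def Network.Connected {V : Type} (P : Network V) (x : V → Bool) : Prop :=
  Relation.ReflTransGen (fun u v => P.Wire x u v ∨ P.Wire x v u) P.source P.target

/-- Directed networks accept if there is a directed path of wires from the source to the target. -/
def Network.Reachable {V : Type} (P : Network V) (x : V → Bool) : Prop :=
  Relation.ReflTransGen (fun u v => P.Wire x u v) P.source P.target

/-- Computations in rounds. In round `i` the `w i` networks `net i A k` are evaluated, where `A` is
the table of the answers of the rounds before `i`; then the network `last A` gives the result. -/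
structure Computation (V : Type) (accepts : Network V → (V → Bool) → Prop) where
  rounds : ℕ
  w : ℕ → ℕ
  net : (i : ℕ) → ((j : Fin i) → Fin (w j) → Bool) → Fin (w i) → Network V
  last : ((j : Fin rounds) → Fin (w j) → Bool) → Network V
  ans : (V → Bool) → (i : ℕ) → Fin (w i) → Bool
  spec : ∀ x i k, ans x i k = true ↔ accepts (net i (fun j => ans x j) k) x

variable {V : Type} {accepts : Network V → (V → Bool) → Prop}

/-- The result. -/
def Computation.Accepts (C : Computation V accepts) (x : V → Bool) : Prop :=
  accepts (C.last (fun j => C.ans x j)) x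

/-- The number of nodes of all networks that are evaluated if the answers are given by `A`. -/
def Computation.size (C : Computation V accepts) (A : (i : ℕ) → Fin (C.w i) → Bool) : ℕ :=
  (C.last (fun j => A j)).nodes +
    ∑ i ∈ Finset.range C.rounds, ∑ k, (C.net i (fun j => A j) k).nodes

/-- The computation has negation parameter at most `t` and size at most `S`: the product over the
rounds of the numbers `w i + 1` is at most `t + 1`, and for all answers the networks that are
evaluated have at most `S` nodes in all. -/
def Computation.Bounds (C : Computation V accepts) (t S : ℕ) : Prop :=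
  ∏ i ∈ Finset.range C.rounds, (C.w i + 1) ≤ t + 1 ∧ ∀ A, C.size A ≤ S

open Classical in
/-- The fraction of the elements of `Λ` that have the property `A`. -/
noncomputable def rate {Λ : Type} [Fintype Λ] (A : Λ → Prop) : ℚ :=
  ((univ.filter A).card : ℚ) / Fintype.card Λ

theorem Computation.probe {K : Type} [Field K] {t S B : ℕ} (C : Computation V accepts)
    (hC : C.Bounds t S)
    (hmono : ∀ P : Network V, ∀ x x', x ≤ x' → accepts P x → accepts P x')
    (cost : ℕ → ℕ)
    (hRB : ∀ P : Network V, ∀ g : (V → Bool) → Bool,
      (∀ x, g x = true ↔ accepts P x) → Pool.Agent.H560R2.RBall K (cost P.nodes) g)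
    (hcost : ∀ n ≤ S, 0 < n → cost n ≤ n * B) :
    ∃ out : (V → Bool) → Bool, (∀ x, C.Accepts x ↔ out x = true) ∧
      Pool.Agent.H560R2.Probe K t (S * B) out := by
  classical
  obtain ⟨hprod, hS⟩ := hC
  have hg : ∀ (P : Network V) (x : V → Bool),
      decide (accepts P x) = true ↔ accepts P x := fun P x => decide_eq_true_iff
  refine ⟨fun x => decide (accepts (C.last (fun j => C.ans x j)) x), fun x => (hg _ x).symm, ?_⟩
  refine Pool.Agent.H560R2.probe_adaptive (w := C.w) C.rounds
    (fun i k A x => decide (accepts (C.net i (fun j => A j) k) x))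
    (by
      intro i k A A' x hA
      have : (fun j : Fin i => A j) = fun j : Fin i => A' j := by
        funext j
        exact hA j j.isLt
      rw [this])
    (by
      intro i k A x x' hx
      rw [Bool.le_iff_imp, hg, hg]
      exact hmono _ x x' hx)
    (fun i k A => cost (C.net i (fun j => A j) k).nodes)
    (fun i k A => hRB _ _ (fun x => hg _ x))
    (fun x => C.ans x)
    (by
      intro x i k
      rw [Bool.eq_iff_iff, hg]
      exact C.spec x i k)
    (fun A x => decide (accepts (C.last (fun j => A j)) x))
    (by
      intro A A' x hA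
      have : (fun j : Fin C.rounds => A j) = fun j : Fin C.rounds => A' j := by
        funext j
        exact hA j j.isLt
      rw [this])
    (fun A => cost (C.last (fun j => A j)).nodes)
    (fun A => hRB _ _ (fun x => hg _ x)) (S * B) t ?_ hprod
  intro A
  have h1 := hS A
  unfold Computation.size at h1
  have hpos : ∀ P : Network V, 0 < P.nodes := fun P => P.source.pos
  have h2 : cost (C.last (fun j => A j)).nodes ≤ (C.last (fun j => A j)).nodes * B :=
    hcost _ (by omega) (hpos _)
  have h3 : ∑ i ∈ Finset.range C.rounds, ∑ k, cost (C.net i (fun j => A j) k).nodes ≤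
      ∑ i ∈ Finset.range C.rounds, ∑ k, (C.net i (fun j => A j) k).nodes * B := by
    refine Finset.sum_le_sum (fun i hi => Finset.sum_le_sum (fun k _ => hcost _ ?_ (hpos _)))
    have h4 : (C.net i (fun j => A j) k).nodes ≤ ∑ k, (C.net i (fun j => A j) k).nodes :=
      Finset.single_le_sum (f := fun k => (C.net i (fun j => A j) k).nodes)
        (fun _ _ => Nat.zero_le _) (Finset.mem_univ k)
    have h5 : ∑ k, (C.net i (fun j => A j) k).nodes ≤
        ∑ i ∈ Finset.range C.rounds, ∑ k, (C.net i (fun j => A j) k).nodes :=
      Finset.single_le_sum (f := fun i => ∑ k, (C.net i (fun j => A j) k).nodes)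
        (fun _ _ => Nat.zero_le _) hi
    omega
  have h6 : ∑ i ∈ Finset.range C.rounds, ∑ k, (C.net i (fun j => A j) k).nodes * B =
      (∑ i ∈ Finset.range C.rounds, ∑ k, (C.net i (fun j => A j) k).nodes) * B := by
    rw [Finset.sum_mul]
    refine Finset.sum_congr rfl (fun i _ => ?_)
    rw [Finset.sum_mul]
  calc _ ≤ (C.last (fun j => A j)).nodes * B +
        (∑ i ∈ Finset.range C.rounds, ∑ k, (C.net i (fun j => A j) k).nodes) * B := by
        rw [← h6]
        exact Nat.add_le_add h2 h3
    _ = ((C.last (fun j => A j)).nodes +
        ∑ i ∈ Finset.range C.rounds, ∑ k, (C.net i (fun j => A j) k).nodes) * B := by ring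
    _ ≤ S * B := Nat.mul_le_mul_right B h1

lemma wire_pres {V : Type} [DecidableEq V] (P : Network V) (x : V → Bool) (u v : Fin P.nodes) :
    P.Wire x u v ↔ Pool.Agent.H560R2.pres (Sum.map id (fun i => (i, true)) (P.label u v))
      (Pool.Agent.H560R2.rst ∅ x) = true := by
  unfold Network.Wire Pool.Agent.H560R2.pres
  rcases P.label u v with b | i
  · simp
  · simp [Pool.Agent.H560R2.rst]

theorem Computation.probe_undirected [DecidableEq V] {K : Type} [Field K] {t S : ℕ}
    (C : Computation V Network.Connected) (hC : C.Bounds t S) :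
    ∃ out : (V → Bool) → Bool, (∀ x, C.Accepts x ↔ out x = true) ∧
      Pool.Agent.H560R2.Probe K t (S * S) out := by
  refine C.probe hC ?_ (fun n => n * n) ?_ (fun n hn _ => Nat.mul_le_mul_left n hn)
  · intro P x x' hx h
    have hw : ∀ u v, P.Wire x u v → P.Wire x' u v := by
      intro u v huv
      unfold Network.Wire at huv ⊢
      rcases hl : P.label u v with b | i
      · rw [hl] at huv
        exact huv
      · rw [hl] at huv
        simp only [Sum.elim_inr] at huv ⊢
        have := hx i
        rw [huv] at this
        exact top_le_iff.mp this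
    exact Relation.ReflTransGen.mono (fun u v huv => huv.imp (hw _ _) (hw _ _)) _ _ h
  · intro P g hg
    refine Pool.Agent.H560R2.RBall.net ∅ (fun u v => Sum.map id (fun i => (i, true)) (P.label u v))
      (fun u v w h => ?_) P.source P.target g (fun x => ?_)
    · rcases hl : P.label u v with b | i
      · rw [hl] at h
        simp at h
      · rw [hl] at h
        simp at h
    · rw [hg]
      unfold Network.Connected
      simp only [wire_pres]

theorem Computation.probe_directed [DecidableEq V] {K : Type} [Field K] {t S : ℕ}
    (C : Computation V Network.Reachable) (hC : C.Bounds t S) :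
    ∃ out : (V → Bool) → Bool, (∀ x, C.Accepts x ↔ out x = true) ∧
      Pool.Agent.H560R2.Probe K t
        (S * 2 ^ ((Nat.log 2 S + 2) * (Nat.log 2 S + 1))) out := by
  refine C.probe hC ?_ (fun n => 2 ^ ((Nat.log 2 n + 1 + 1) * (Nat.log 2 n + 1))) ?_ ?_
  · intro P x x' hx h
    have hw : ∀ u v, P.Wire x u v → P.Wire x' u v := by
      intro u v huv
      unfold Network.Wire at huv ⊢
      rcases hl : P.label u v with b | i
      · rw [hl] at huv
        exact huv
      · rw [hl] at huv
        simp only [Sum.elim_inr] at huv ⊢
        have := hx i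
        rw [huv] at this
        exact top_le_iff.mp this
    exact Relation.ReflTransGen.mono (fun u v huv => hw _ _ huv) _ _ h
  · intro P g hg
    refine Pool.Agent.H560R2.RBall.dnet ∅ (fun u v => Sum.map id (fun i => (i, true)) (P.label u v))
      (fun u v w h => ?_) P.source P.target (Nat.log 2 P.nodes + 1)
      (Nat.lt_pow_succ_log_self (by norm_num) _).le g (fun x => ?_)
    · rcases hl : P.label u v with b | i
      · rw [hl] at h
        simp at h
      · rw [hl] at h
        simp at h
    · rw [hg]
      unfold Network.Reachable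
      simp only [wire_pres]
  · intro n hn hn0
    have h6 : Nat.log 2 n ≤ Nat.log 2 S := Nat.log_mono_right hn
    have h7 : 2 ^ ((Nat.log 2 n + 1 + 1) * (Nat.log 2 n + 1)) ≤
        2 ^ ((Nat.log 2 S + 2) * (Nat.log 2 S + 1)) :=
      Nat.pow_le_pow_right (by norm_num) (Nat.mul_le_mul (by omega) (by omega))
    exact h7.trans (Nat.le_mul_of_pos_left _ hn0)

/-- from the hard distributions to the rates -/
lemma rate_bound {M s κ B : ℕ} (hM : 0 < M) {Λ I : Type} [Fintype Λ] [Nonempty Λ]
    {far sat : Λ → I → Bool} {out : (I → Bool) → Bool}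
    (h : Pool.Agent.H560R2.Adv M s κ B far sat out) (A : (I → Bool) → Prop)
    (hA : ∀ x, A x ↔ out x = true) :
    rate (fun l => A (far l)) ≤ rate (fun l => A (sat l)) + κ / M + B / 2 ^ s := by
  classical
  unfold Pool.Agent.H560R2.Adv at h
  have hcard : (0 : ℚ) < Fintype.card Λ := by exact_mod_cast Fintype.card_pos
  have hMq : (0 : ℚ) < M := by exact_mod_cast hM
  have h2s : (0 : ℚ) < 2 ^ s := by positivity
  unfold rate
  have e1 : (univ.filter (fun l => A (far l))).card =
      (univ.filter (fun l => out (far l) = true)).card := by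
    congr 1
    ext l
    simp only [Finset.mem_filter, Finset.mem_univ, true_and, hA]
  have e2 : (univ.filter (fun l => A (sat l))).card =
      (univ.filter (fun l => out (sat l) = true)).card := by
    congr 1
    ext l
    simp only [Finset.mem_filter, Finset.mem_univ, true_and, hA]
  rw [show (univ.filter (fun l => A (far l))).card = _ from e1,
    show (univ.filter (fun l => A (sat l))).card = _ from e2]
  set x := (univ.filter (fun l => out (far l) = true)).card
  set y := (univ.filter (fun l => out (sat l) = true)).card
  set L := Fintype.card Λ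
  have o3 : (M : ℚ) * 2 ^ s * x ≤ M * 2 ^ s * y + (2 ^ s * κ + M * B) * L := by
    exact_mod_cast h
  have e3 : (y : ℚ) / L + κ / M + B / 2 ^ s =
      (M * 2 ^ s * y + (2 ^ s * κ + M * B) * L) / (M * 2 ^ s * L) := by
    field_simp
    ring
  rw [e3, div_le_div_iff₀ hcard (by positivity)]
  calc (x : ℚ) * (M * 2 ^ s * L) = (M * 2 ^ s * x) * L := by ring
    _ ≤ (M * 2 ^ s * y + (2 ^ s * κ + M * B) * L) * L :=
        mul_le_mul_of_nonneg_right o3 hcard.le

/-- random algorithms -/
lemma random_bound {s t B : ℕ} {Λ I : Type} [Fintype Λ] [Nonempty Λ]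
    {far sat : Λ → I → Bool} (R : Type) [Fintype R] [Nonempty R] (A : R → (I → Bool) → Prop)
    (hA : ∀ r, rate (fun l => A r (far l)) ≤ rate (fun l => A r (sat l)) +
      t / ((6 * (t + 1) : ℕ) : ℚ) + B / 2 ^ s)
    (hsat : ∀ l, rate (fun r => A r (sat l)) ≤ 1 / 3)
    (hfar : ∀ l, 2 / 3 ≤ rate (fun r => A r (far l))) : 2 ^ s ≤ 6 * B := by
  classical
  have hR : (0 : ℚ) < Fintype.card R := by exact_mod_cast Fintype.card_pos
  have hL : (0 : ℚ) < Fintype.card Λ := by exact_mod_cast Fintype.card_pos
  have swap : ∀ f : Λ → I → Bool, (∑ r, rate (fun l => A r (f l))) * Fintype.card Λ =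
      (∑ l, rate (fun r => A r (f l))) * Fintype.card R := by
    intro f
    unfold rate
    rw [← Finset.sum_div, ← Finset.sum_div, div_mul_cancel₀ _ hL.ne', div_mul_cancel₀ _ hR.ne']
    simp only [Finset.card_filter]
    push_cast
    exact Finset.sum_comm
  have k1 : (2 / 3 : ℚ) * Fintype.card R ≤ ∑ r, rate (fun l => A r (far l)) := by
    have e1 : (2 / 3 : ℚ) * Fintype.card Λ ≤ ∑ l, rate (fun r => A r (far l)) := by
      have := Finset.card_nsmul_le_sum (univ : Finset Λ) (fun l => rate (fun r => A r (far l)))
        (2 / 3) (fun l _ => hfar l)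
      rw [Finset.card_univ, nsmul_eq_mul] at this
      linarith
    have e2 := swap far
    refine le_of_mul_le_mul_right ?_ hL
    rw [e2]
    have := mul_le_mul_of_nonneg_right e1 hR.le
    linarith
  have k2 : ∑ r, rate (fun l => A r (sat l)) ≤ (1 / 3 : ℚ) * Fintype.card R := by
    have e1 : ∑ l, rate (fun r => A r (sat l)) ≤ (1 / 3 : ℚ) * Fintype.card Λ := by
      have := Finset.sum_le_card_nsmul (univ : Finset Λ)
        (fun l => rate (fun r => A r (sat l))) (1 / 3) (fun l _ => hsat l)
      rw [Finset.card_univ, nsmul_eq_mul] at this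
      linarith
    have e2 := swap sat
    refine le_of_mul_le_mul_right ?_ hL
    rw [e2]
    have := mul_le_mul_of_nonneg_right e1 hR.le
    linarith
  have k3 : ∑ r, rate (fun l => A r (far l)) ≤ ∑ r, rate (fun l => A r (sat l)) +
      Fintype.card R * (t / ((6 * (t + 1) : ℕ) : ℚ) + B / 2 ^ s) := by
    have : (Fintype.card R : ℚ) * (t / ((6 * (t + 1) : ℕ) : ℚ) + B / 2 ^ s) =
        ∑ _r : R, ((t : ℚ) / ((6 * (t + 1) : ℕ) : ℚ) + B / 2 ^ s) := by
      rw [Finset.sum_const, Finset.card_univ, nsmul_eq_mul]
    rw [this, ← Finset.sum_add_distrib]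
    apply Finset.sum_le_sum
    intro r _
    have := hA r
    linarith
  have k4 : (t : ℚ) / ((6 * (t + 1) : ℕ) : ℚ) ≤ 1 / 6 := by
    rw [div_le_div_iff₀ (by positivity) (by norm_num)]
    push_cast
    linarith
  have k5 : (1 / 6 : ℚ) ≤ B / 2 ^ s := by
    have e1 : (2 / 3 : ℚ) * Fintype.card R ≤ (1 / 3 : ℚ) * Fintype.card R +
        Fintype.card R * (1 / 6 + B / 2 ^ s) := by
      refine (k1.trans k3).trans (add_le_add k2 ?_)
      exact mul_le_mul_of_nonneg_left (by linarith) hR.le
    have e2 : (Fintype.card R : ℚ) * (2 / 3) ≤
        Fintype.card R * (1 / 3 + (1 / 6 + B / 2 ^ s)) := by linarith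
    have := le_of_mul_le_mul_left e2 hR
    linarith
  have h2s : (0 : ℚ) < 2 ^ s := by positivity
  rw [div_le_div_iff₀ (by norm_num) h2s] at k5
  have : (2 : ℚ) ^ s ≤ 6 * B := by linarith
  exact_mod_cast this

/-- (A) There is a constant `c` such that for all `N` and all `M ≥ 1` there are a set `G` of
`m ≤ N` linear equations over the field with two elements in `N` variables, eight in each equation,
a number `s` with `N ≤ c M (s + 1)`, and two distributions (images of the uniform distribution on a
finite set `Λ`): `sat` on solvable subsystems of `G` and `far` on subsystems of `G` such that each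
assignment violates at least `s` of their equations, with the following properties. Unsolvability
has a monotone span program over the field with two elements with `m` rows. The probability that a
computation with negation parameter at most `t` and size at most `S` accepts `far` exceeds the
probability that it accepts `sat` by at most `t / M + S ^ 2 / 2 ^ s` for undirected networks, and by
at most `t / M + S 2 ^ ((log S + 2) (log S + 1)) / 2 ^ s` for directed networks.

(B) For all `N` and `t` there are such a system `G` and a number `d` with `N ≤ c (t + 1) (d + 1)`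
for which the following holds: if a random computation `A r` with negation parameter at most `t` and
size at most `S` accepts every solvable subsystem of `G` with probability at most `1 / 3` and every
subsystem of which each assignment violates at least `d` equations with probability at least
`2 / 3`, then `N ≤ c (t + 1) (log S + 1)` for undirected networks, and
`N ≤ c (t + 1) (log S + 1) ^ 2` for directed networks. -/
theorem result : ∃ c : ℕ,
    (∀ N M : ℕ, 0 < M → ∃ (m s : ℕ) (G : Fin m → Equation N) (Λ : Type) (_ : Fintype Λ)
      (_ : Nonempty Λ) (far sat : Λ → Fin m → Bool),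
      m ≤ N ∧ N ≤ c * M * (s + 1) ∧ ParitySpan G ∧
      (∀ l, Solvable G (sat l)) ∧ (∀ l, Far G s (far l)) ∧
      ∀ t S : ℕ,
        (∀ C : Computation (Fin m) Network.Connected, C.Bounds t S →
          rate (fun l => C.Accepts (far l)) ≤
            rate (fun l => C.Accepts (sat l)) + t / M + (S ^ 2 : ℕ) / 2 ^ s) ∧
        (∀ C : Computation (Fin m) Network.Reachable, C.Bounds t S →
          rate (fun l => C.Accepts (far l)) ≤ rate (fun l => C.Accepts (sat l)) + t / M +
            (S * 2 ^ ((Nat.log 2 S + 2) * (Nat.log 2 S + 1)) : ℕ) / 2 ^ s)) ∧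
    (∀ N t : ℕ, ∃ (m d : ℕ) (G : Fin m → Equation N),
      m ≤ N ∧ N ≤ c * (t + 1) * (d + 1) ∧ ParitySpan G ∧
      ∀ (S : ℕ) (R : Type) [Fintype R] [Nonempty R],
        (∀ A : R → Computation (Fin m) Network.Connected, (∀ r, (A r).Bounds t S) →
          (∀ x, Solvable G x → rate (fun r => (A r).Accepts x) ≤ 1 / 3) →
          (∀ x, Far G d x → 2 / 3 ≤ rate (fun r => (A r).Accepts x)) →
          N ≤ c * (t + 1) * (Nat.log 2 S + 1)) ∧
        (∀ A : R → Computation (Fin m) Network.Reachable, (∀ r, (A r).Bounds t S) →
          (∀ x, Solvable G x → rate (fun r => (A r).Accepts x) ≤ 1 / 3) →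
          (∀ x, Far G d x → 2 / 3 ≤ rate (fun r => (A r).Accepts x)) →
          N ≤ c * (t + 1) * (Nat.log 2 S + 1) ^ 2)) := by
  classical
  obtain ⟨c0, hc0, h0⟩ := Pool.Agent.H560R2.xor_dist
  have main : ∀ N M : ℕ, 0 < M → ∃ (m s : ℕ) (G : Fin m → Equation N) (Λ : Type) (_ : Fintype Λ)
      (_ : Nonempty Λ) (far sat : Λ → Fin m → Bool),
      m ≤ N ∧ N ≤ c0 * M * (s + 1) ∧ ParitySpan G ∧
      (∀ l, Solvable G (sat l)) ∧ (∀ l, Far G s (far l)) ∧
      ∀ t S : ℕ,
        (∀ C : Computation (Fin m) Network.Connected, C.Bounds t S →
          rate (fun l => C.Accepts (far l)) ≤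
            rate (fun l => C.Accepts (sat l)) + t / M + (S ^ 2 : ℕ) / 2 ^ s) ∧
        (∀ C : Computation (Fin m) Network.Reachable, C.Bounds t S →
          rate (fun l => C.Accepts (far l)) ≤ rate (fun l => C.Accepts (sat l)) + t / M +
            (S * 2 ^ ((Nat.log 2 S + 2) * (Nat.log 2 S + 1)) : ℕ) / 2 ^ s) := by
    intro N M hM
    by_cases hN : c0 * M ≤ N
    · obtain ⟨m, s, G, Ω, P, Ng, _, _, _, _, α, β, loc, h1, h2, h3, h4, h5⟩ := h0 N M hM hN
      have hMne : Nonempty (Fin M) := ⟨⟨0, hM⟩⟩
      refine ⟨m, s, G, Fin M × (Fin M → Ng) × P, inferInstance, inferInstance,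
        Pool.Agent.H560R2.farD loc α β, Pool.Agent.H560R2.satD loc β, h1, h2,
        ⟨Pool.Agent.H560R2.lrow G, Pool.Agent.H560R2.ltgt N,
          fun x => Pool.Agent.H560R2.solv_span G x⟩, fun l => h3 _ _, h4, fun t S => ⟨?_, ?_⟩⟩
      · intro C hC
        obtain ⟨out, o1, o2⟩ := C.probe_undirected (K := ℚ) hC
        have := rate_bound hM (Pool.Agent.H560R2.adv_probe (h5 ℚ two_ne_zero) loc o2) _ o1
        rw [← pow_two] at this
        exact this
      · intro C hC
        obtain ⟨out, o1, o2⟩ := C.probe_directed (K := ℚ) hC
        exact rate_bound hM (Pool.Agent.H560R2.adv_probe (h5 ℚ two_ne_zero) loc o2) _ o1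
    · have triv : ∀ (A B C : ℚ), 0 ≤ B → 0 ≤ C → A ≤ A + B + C := fun A B C hB hC => by linarith
      refine ⟨0, 0, Fin.elim0, Unit, inferInstance, inferInstance, fun _ => Fin.elim0,
        fun _ => Fin.elim0, Nat.zero_le _, by omega, ⟨Pool.Agent.H560R2.lrow _,
          Pool.Agent.H560R2.ltgt N, fun x => Pool.Agent.H560R2.solv_span _ x⟩,
        fun _ => ⟨fun _ => 0, fun i => i.elim0⟩, fun _ a => Nat.zero_le _, fun t S => ⟨?_, ?_⟩⟩
      · intro C _
        exact triv _ _ _ (by positivity) (by positivity)
      · intro C _
        exact triv _ _ _ (by positivity) (by positivity)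
  refine ⟨36 * c0, ?_, ?_⟩
  · intro N M hM
    obtain ⟨m, s, G, Λ, i1, i2, far, sat, h1, h2, h3⟩ := main N M hM
    refine ⟨m, s, G, Λ, i1, i2, far, sat, h1, h2.trans ?_, h3⟩
    exact Nat.mul_le_mul_right _ (Nat.mul_le_mul_right _ (Nat.le_mul_of_pos_left _ (by norm_num)))
  · intro N t
    obtain ⟨m, s, G, Λ, i1, i2, far, sat, h1, h2, h3, h4, h5, h6⟩ :=
      main N (6 * (t + 1)) (by omega)
    refine ⟨m, s, G, h1, h2.trans ?_, h3, ?_⟩
    · calc c0 * (6 * (t + 1)) * (s + 1) = 6 * (c0 * (t + 1) * (s + 1)) := by ring
        _ ≤ 36 * (c0 * (t + 1) * (s + 1)) := Nat.mul_le_mul_right _ (by norm_num)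
        _ = _ := by ring
    · intro S R _ _
      refine ⟨?_, ?_⟩
      · intro A hA hsat hfar
        have h7 := random_bound R (fun r x => (A r).Accepts x)
          (fun r => (h6 t S).1 (A r) (hA r)) (fun l => hsat _ (h4 l)) (fun l => hfar _ (h5 l))
        have h8 : S < 2 ^ (Nat.log 2 S + 1) := Nat.lt_pow_succ_log_self (by norm_num) S
        have h9 : 2 ^ s < 2 ^ (3 + (2 * (Nat.log 2 S + 1))) := by
          have e1 : S ^ 2 < 2 ^ (2 * (Nat.log 2 S + 1)) := by
            rw [mul_comm, pow_mul]
            exact Nat.pow_lt_pow_left h8 (by norm_num)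
          rw [pow_add]
          calc 2 ^ s ≤ 6 * S ^ 2 := h7
            _ ≤ 2 ^ 3 * S ^ 2 := Nat.mul_le_mul_right _ (by norm_num)
            _ < _ := Nat.mul_lt_mul_of_pos_left e1 (by norm_num)
        have h10 := (Nat.pow_lt_pow_iff_right (by norm_num : 1 < 2)).mp h9
        calc N ≤ c0 * (6 * (t + 1)) * (s + 1) := h2
          _ ≤ c0 * (6 * (t + 1)) * (6 * (Nat.log 2 S + 1)) := Nat.mul_le_mul_left _ (by omega)
          _ = _ := by ring
      · intro A hA hsat hfar
        have h7 := random_bound R (fun r x => (A r).Accepts x)
          (fun r => (h6 t S).2 (A r) (hA r)) (fun l => hsat _ (h4 l)) (fun l => hfar _ (h5 l))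
        have h8 : S < 2 ^ (Nat.log 2 S + 1) := Nat.lt_pow_succ_log_self (by norm_num) S
        obtain ⟨q, hq⟩ : ∃ q, q = Nat.log 2 S + 1 := ⟨_, rfl⟩
        have hq1 : 1 ≤ q := by omega
        have e0 : Nat.log 2 S + 2 = q + 1 := by omega
        rw [e0, ← hq] at h7
        rw [← hq] at h8 ⊢
        have h9 : 2 ^ s < 2 ^ (3 + (q + (q + 1) * q)) := by
          rw [pow_add, pow_add]
          calc 2 ^ s ≤ 6 * (S * 2 ^ ((q + 1) * q)) := h7
            _ ≤ 2 ^ 3 * (S * 2 ^ ((q + 1) * q)) := Nat.mul_le_mul_right _ (by norm_num)
            _ < _ := Nat.mul_lt_mul_of_pos_left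
                (Nat.mul_lt_mul_of_pos_right h8 (by positivity)) (by norm_num)
        have h10 := (Nat.pow_lt_pow_iff_right (by norm_num : 1 < 2)).mp h9
        calc N ≤ c0 * (6 * (t + 1)) * (s + 1) := h2
          _ ≤ c0 * (6 * (t + 1)) * (6 * q ^ 2) := Nat.mul_le_mul_left _ (by nlinarith)
          _ = _ := by ring

end Pool.Agent.Results.MP_9dcf40_lc.HeuristicPolylogSpace
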