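import Mathlib
import Pool.Agent.H540R2.Circ
import Pool.Agent.H540R2.Lift.Defs
import Pool.Agent.H540R2.Lift.NegDefs
import Pool.Agent.H540R2.Lift.HFinal
import Pool.Agent.H540R2.Lift.CliqueF

/-!
# P and polylogarithmic space are incomparable for circuits with few NOT gates

Time is the size and space is the width of (layered) circuits.
-/

set_option autoImplicit false

namespace Pool.Agent.Results.MP_9dcf40_lc.Incomparable

open Pool.Agent.H540R2

/-- First part: some function with monotone circuits of polynomial size needs `2 ^ t ≥ n / polylog n`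
when the circuit has `t` NOT gates, quasi-polynomial size and polylogarithmic width (even
`n ≤ (q * w * log n) ^ c * 2 ^ t` for size `2 ^ q` and width `w`). Second part: for every `A` some
function with monotone circuits of quasi-polynomial size and width `2` needs
`2 ^ t ≥ n / polylog n` when the circuit has `t` NOT gates and size at most `2 ^ ((log n) ^ A)`
(every polynomial for `A = 2`). -/
theorem result :
    (∃ f : (n : ℕ) → (Fin n → Bool) → Bool,
      (∃ c : ℕ, ∀ n, ∃ C : Circuit n, C.Monotone ∧ (∀ x, C.eval x = f n x) ∧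
        C.size ≤ n ^ c + c) ∧
      ∃ c : ℕ, ∀ (n : ℕ) (C : Circuit n) (w q : ℕ), (∀ x, C.eval x = f n x) →
        C.Layered w → 1 ≤ q → C.size ≤ 2 ^ q →
        n ≤ (q * w * (Nat.log 2 n + 1)) ^ c * 2 ^ C.nots) ∧
    ∀ A : ℕ, ∃ g : (n : ℕ) → (Fin n → Bool) → Bool, ∃ c : ℕ, ∀ n,
      (∃ C : Circuit n, C.Monotone ∧ (∀ x, C.eval x = g n x) ∧ C.Layered 2 ∧
        C.size ≤ 2 ^ (Nat.log 2 n + 4) ^ c) ∧
      ∀ C : Circuit n, (∀ x, C.eval x = g n x) → C.size ≤ 2 ^ Nat.log 2 n ^ A →
        n ≤ (Nat.log 2 n + 4) ^ c * 2 ^ C.nots :=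
  ⟨Pool.Agent.H540R2.Lift.poly_neg, Pool.Agent.H540R2.Lift.polylog_neg⟩

end Pool.Agent.Results.MP_9dcf40_lc.Incomparable
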