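import Pool.Agent.H538R4.SP.Final

/-!
# The solvable path problem needs almost linear space in linear time

Machines which use space `s` are simulated, non-uniformly, by branching programs with
`2 ^ O(s + log N)` nodes.  We show that the solvable path problem, which is complete in `P`, needs
space `Ω(N / log N)` on deterministic machines, for every `k`, as long as certain `n = Ω(N / log N)`
bits of the input are read at most `k` times on average.

A path system is given by a list of `M` records; the names of the nodes are words of `ℓ + 1` bits.
In the hard family only the first bits of the names of the heads (the nodes `x` of the triples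
`(x, y, z)`) of any given `n = ⌊M / D⌋` triples vary: such a bit decides whether the triple makes
the node for `variable i is true` or the node for `variable i is false` admissible, and the
other triples evaluate a random CNF formula with `O(n)` clauses of constant width.  The lower bound
for these formulas is `Pool.Agent.H554R2.Lin.final_cnf_full` (helper554's team).
-/

set_option autoImplicit false

namespace Pool.Agent.Results.MP_9dcf40_lc.PathSystemsLinearTime

open Pool.Agent.H554R2.Sem Pool.Agent.H554R2.Coin Pool.Agent.H554R2.Cnf Pool.Agent.H538R4.SP

/-- For every `k` there is a constant `D` such that for all `n`, `M`, `ℓ` with `D n ≤ M` and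
`D n ≤ 2 ^ ℓ` and for any `n` triples `a i` of the path systems with `M` records and names of
`ℓ + 1` bits the bits other than the first bits of the heads of these triples can be given values
`b` such that: every deterministic branching program which outputs `true` on no unsolvable path
system of the family so obtained (`x i` is the first bit of the head of the triple `a i`), and on
at least a `2 ^ (- ⌊n / D⌋)` fraction of the solvable ones after at most `k n` queries to these `n`
bits (and any number of other queries), has at least `2 ^ ⌊n / D⌋` nodes. -/
theorem result (k : ℕ) : ∃ D : ℕ, 0 < D ∧ ∀ (n M ℓ : ℕ) (a : Fin n ↪ Fin M), D * n ≤ M →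
    D * n ≤ 2 ^ ℓ → ∃ b : SPBits M ℓ → Bool, ∀ P : BP (SPBits M ℓ) Bool,
      (∀ (x : Pt n) L, P.Comp (plug (fun i => headBit (a i)) b x) L true →
        Solvable (plug (fun i => headBit (a i)) b x)) →
      Nat.card {x : Pt n // Solvable (plug (fun i => headBit (a i)) b x)} ≤ 2 ^ (n / D) *
        Nat.card {x : Pt n // ∃ L, P.Comp (plug (fun i => headBit (a i)) b x) L true ∧
          ∑ i, L.count (headBit (a i)) ≤ k * n} →
      2 ^ (n / D) ≤ Fintype.card P.State :=
  finalB k

end Pool.Agent.Results.MP_9dcf40_lc.PathSystemsLinearTime
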